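import Pool.Agent.W907.NAdic.Lat

/-!
The average of the minimal norm of a rational approximation of a residue modulo `N ^ n`.
-/

set_option autoImplicit false

namespace Pool.Agent.TH730.NAd

open Pool.Agent.W907.NAdic

/-- a shift which is coprime to `N` -/
theorem exists_shift {N : ℕ} (hN : 2 ≤ N) {g1 g2 : ℤ} (h : IsCoprime g1 g2) :
    ∃ a : ℕ, a ≤ N ∧ IsCoprime (g2 + a * g1) (N : ℤ) := by
  classical
  let S : Finset ℕ := N.primeFactors.filter (fun p : ℕ => ¬ (p : ℤ) ∣ g2)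
  let a : ℕ := ∏ p ∈ S, p
  have ha : a ∣ N :=
    (Finset.prod_dvd_prod_of_subset S N.primeFactors (fun p => p)
      (Finset.filter_subset _ _)).trans (Nat.prod_primeFactors_dvd N)
  refine ⟨a, Nat.le_of_dvd (by omega) ha, ?_⟩
  rw [Int.isCoprime_iff_gcd_eq_one]
  by_contra hne
  obtain ⟨p, hp, hpd⟩ := Nat.exists_prime_and_dvd hne
  have hpd' : (p : ℤ) ∣ (Int.gcd (g2 + a * g1) (N : ℤ) : ℤ) := by exact_mod_cast hpd
  have h1 : (p : ℤ) ∣ g2 + a * g1 := hpd'.trans (Int.gcd_dvd_left ..)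
  have h2 : p ∣ N := by
    have : (p : ℤ) ∣ (N : ℤ) := hpd'.trans (Int.gcd_dvd_right ..)
    exact_mod_cast this
  have hpm : p ∈ N.primeFactors := Nat.mem_primeFactors.2 ⟨hp, h2, by omega⟩
  have hpI : Prime (p : ℤ) := Nat.prime_iff_prime_int.1 hp
  by_cases hg2 : (p : ℤ) ∣ g2
  · have h3 : (p : ℤ) ∣ a * g1 := (dvd_add_right hg2).1 h1
    rcases hpI.dvd_or_dvd h3 with h4 | h4
    · have h5 : p ∣ a := by exact_mod_cast h4
      obtain ⟨r, hr, hpr⟩ := (Prime.dvd_finsetProd_iff hp.prime _).1 h5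
      obtain ⟨hr1, hr2⟩ := Finset.mem_filter.1 hr
      have hrp : r.Prime := (Nat.mem_primeFactors.1 hr1).1
      have : p = r := (Nat.prime_dvd_prime_iff_eq hp hrp).1 hpr
      subst this
      exact hr2 hg2
    · exact hpI.not_isUnit (h.isUnit_of_dvd' h4 hg2)
  · have h5 : p ∣ a := Finset.dvd_prod_of_mem _ (Finset.mem_filter.2 ⟨hpm, hg2⟩)
    have h6 : (p : ℤ) ∣ a * g1 := Dvd.dvd.mul_right (by exact_mod_cast h5) _
    exact hg2 ((dvd_add_left h6).1 h1)

theorem nm_add (u g u' g' : ℤ) : nm (u + u') (g + g') ≤ nm u g + nm u' g' := by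
  unfold nm
  omega

/-- The upper bound for the complexity by a short vector. -/
theorem upper {N : ℕ} (hN : 2 ≤ N) (n : ℕ) (V : ℤ) :
    ∃ u g : ℤ, ¬ (u = 0 ∧ g = 0) ∧ ((N ^ n : ℕ) : ℤ) ∣ g * V - u ∧ nm u g ^ 2 ≤ N ^ n ∧
      mc N n V * nm u g ≤ (2 + N) * N ^ n := by
  set q : ℕ := N ^ n with hq
  have hq1 : 1 ≤ q := Nat.one_le_pow _ _ (by omega)
  obtain ⟨u1, g1, t1, hne, ht, hD, hcop⟩ := exists_short q hq1 V
  obtain ⟨a, b, hab⟩ := hcop
  -- a second basis vector
  have h1 : (q : ℤ) ∣ g1 * V - u1 := ⟨t1, ht⟩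
  have hy : (q : ℤ) ∣ (-b) * V - ((-b) * V - q * a) := ⟨a, by ring⟩
  have hdet : u1 * (-b) - g1 * ((-b) * V - q * a) = q := by
    linear_combination b * ht + (q : ℤ) * hab
  obtain ⟨c, hc1, hc2⟩ := reduce h1 hy hdet hne hD
  set u2 : ℤ := (-b) * V - q * a - c * u1 with hu2
  set g2 : ℤ := -b - c * g1 with hg2
  have hcop2 : IsCoprime g1 g2 := by
    obtain ⟨t2, ht2⟩ := hc1
    -- g1 * t2 - t1 * g2 = 1
    have hq0 : (q : ℤ) ≠ 0 := by exact_mod_cast (by omega : q ≠ 0)
    refine ⟨t2, -t1, ?_⟩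
    apply mul_left_cancel₀ hq0
    have h3 : g2 * V - u2 = q * t2 := ht2
    have h4 : u1 * g2 - g1 * u2 = q := by
      rw [hu2, hg2]
      linear_combination hdet
    linear_combination (-g1) * h3 + g2 * ht + h4
  obtain ⟨s, hs1, hs2⟩ := exists_shift hN hcop2
  refine ⟨u1, g1, hne, h1, hD, ?_⟩
  have hmem : Cd N n V (u2 + s * u1) (g2 + s * g1) := by
    refine ⟨hs2, ?_⟩
    have h5 := dvd_add hc1 (Dvd.dvd.mul_left h1 (s : ℤ))
    rw [hq] at h5
    push_cast at h5
    have h6 : (g2 + s * g1) * V - (u2 + s * u1) =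
        (g2 * V - u2) + s * (g1 * V - u1) := by ring
    rw [h6]
    exact h5
  have h7 : mc N n V ≤ nm u2 g2 + s * nm u1 g1 := by
    refine (mc_le hmem).trans ((nm_add _ _ _ _).trans ?_)
    rw [nm_mul]
    simp
  calc mc N n V * nm u1 g1 ≤ (nm u2 g2 + s * nm u1 g1) * nm u1 g1 := Nat.mul_le_mul_right _ h7
    _ = nm u2 g2 * nm u1 g1 + s * nm u1 g1 ^ 2 := by ring
    _ ≤ 2 * q + N * q := Nat.add_le_add hc2 (Nat.mul_le_mul hs1 hD)
    _ = (2 + N) * q := by ring

open Classical in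
/-- The residues with a short vector are few. -/
theorem count (q X : ℕ) (hX : X < q) :
    ((Finset.range q).filter (fun V : ℕ => ∃ u g : ℤ, ¬ (u = 0 ∧ g = 0) ∧
      (q : ℤ) ∣ g * V - u ∧ nm u g ≤ X)).card ≤ 6 * X ^ 2 := by
  classical
  let T : ℕ → ℕ → Finset ℕ := fun g t =>
    (Finset.range q).filter (fun V : ℕ => |(g : ℤ) * V - q * t| ≤ X)
  have hsub : (Finset.range q).filter (fun V : ℕ => ∃ u g : ℤ, ¬ (u = 0 ∧ g = 0) ∧
      (q : ℤ) ∣ g * V - u ∧ nm u g ≤ X) ⊆
      (Finset.Icc 1 X).biUnion fun g => (Finset.range (g + 1)).biUnion fun t => T g t := by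
    intro V hV
    obtain ⟨hVq, u, g, hne, hdvd, hnm⟩ := Finset.mem_filter.1 hV
    rw [Finset.mem_range] at hVq
    -- normalise the sign
    obtain ⟨u, g, hg, hdvd, hnu, hng⟩ : ∃ u g : ℤ, 0 < g ∧ (q : ℤ) ∣ g * V - u ∧
        |u| ≤ X ∧ g ≤ X := by
      unfold nm at hnm
      have hg0 : g ≠ 0 := by
        rintro rfl
        have h1 : (q : ℤ) ∣ u := by
          have := dvd_neg.2 hdvd
          simpa using this
        have h2 : u = 0 := by
          apply Int.eq_zero_of_abs_lt_dvd h1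
          have : |u| ≤ X := by
            rw [Int.abs_eq_natAbs]
            have : u.natAbs ≤ X := by omega
            exact_mod_cast this
          have : (X : ℤ) < q := by exact_mod_cast hX
          omega
        exact hne ⟨h2, rfl⟩
      rcases lt_or_gt_of_ne hg0 with h | h
      · refine ⟨-u, -g, by omega, ?_, ?_, by omega⟩
        · have := dvd_neg.2 hdvd
          rwa [show -(g * (V : ℤ) - u) = -g * V - -u by ring] at this
        · rw [abs_neg, Int.abs_eq_natAbs]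
          have : u.natAbs ≤ X := by omega
          exact_mod_cast this
      · refine ⟨u, g, h, hdvd, ?_, by omega⟩
        rw [Int.abs_eq_natAbs]
        have : u.natAbs ≤ X := by omega
        exact_mod_cast this
    obtain ⟨t, ht⟩ := hdvd
    have hX' : (X : ℤ) < q := by exact_mod_cast hX
    have hVq' : (V : ℤ) < q := by exact_mod_cast hVq
    have hV0 : (0 : ℤ) ≤ V := by positivity
    obtain ⟨hu1, hu2⟩ := abs_le.1 hnu
    have ht0 : 0 ≤ t := by
      by_contra hcon
      push Not at hcon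
      have h1 : (q : ℤ) * t ≤ -q := by nlinarith
      have h2 : 0 ≤ g * (V : ℤ) := by positivity
      linarith
    have htg : t ≤ g := by
      by_contra hcon
      push Not at hcon
      have h1 : (q : ℤ) * (g + 1) ≤ q * t := by
        apply mul_le_mul_of_nonneg_left _ (by linarith)
        omega
      have h2 : g * (V : ℤ) ≤ g * q := mul_le_mul_of_nonneg_left hVq'.le hg.le
      nlinarith
    obtain ⟨g', rfl⟩ := Int.eq_ofNat_of_zero_le hg.le
    obtain ⟨t', rfl⟩ := Int.eq_ofNat_of_zero_le ht0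
    rw [Finset.mem_biUnion]
    refine ⟨g', Finset.mem_Icc.2 ⟨by omega, by omega⟩, ?_⟩
    rw [Finset.mem_biUnion]
    refine ⟨t', Finset.mem_range.2 (by omega), ?_⟩
    refine Finset.mem_filter.2 ⟨Finset.mem_range.2 hVq, ?_⟩
    have h3 : (g' : ℤ) * V - q * t' = u := by linarith
    rw [h3]
    exact hnu
  have hT : ∀ g t : ℕ, 1 ≤ g → (T g t).card ≤ 2 * X / g + 1 := by
    intro g t hg
    rcases (T g t).eq_empty_or_nonempty with h | h
    · rw [h]; simp
    · have hmin := Finset.min'_mem (T g t) h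
      set V0 := (T g t).min' h with hV0
      have hss : T g t ⊆ Finset.Icc V0 (V0 + 2 * X / g) := by
        intro V hV
        have hle : V0 ≤ V := Finset.min'_le _ _ hV
        obtain ⟨-, h1⟩ := Finset.mem_filter.1 hV
        obtain ⟨-, h2⟩ := Finset.mem_filter.1 hmin
        rw [Finset.mem_Icc]
        refine ⟨hle, ?_⟩
        obtain ⟨h3, h4⟩ := abs_le.1 h1
        obtain ⟨h5, h6⟩ := abs_le.1 h2
        have h7 : (g : ℤ) * (V - V0) ≤ 2 * X := by linarith
        have h8 : (V - V0) * g ≤ 2 * X := by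
          zify [hle]
          linarith
        have h9 : V - V0 ≤ 2 * X / g := (Nat.le_div_iff_mul_le (by omega)).2 h8
        omega
      refine (Finset.card_le_card hss).trans ?_
      rw [Nat.card_Icc]
      generalize 2 * X / g = e
      omega
  refine (Finset.card_le_card hsub).trans (Finset.card_biUnion_le.trans ?_)
  have hg : ∀ g ∈ Finset.Icc 1 X,
      ((Finset.range (g + 1)).biUnion fun t => T g t).card ≤ 6 * X := by
    intro g hg
    obtain ⟨hg1, hg2⟩ := Finset.mem_Icc.1 hg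
    refine Finset.card_biUnion_le.trans ?_
    refine (Finset.sum_le_sum fun t _ => hT g t hg1).trans ?_
    rw [Finset.sum_const, Finset.card_range, smul_eq_mul]
    have h1 : g * (2 * X / g) ≤ 2 * X := Nat.mul_div_le _ _
    have h2 : 2 * X / g ≤ 2 * X := Nat.div_le_self _ _
    nlinarith
  refine (Finset.sum_le_sum hg).trans ?_
  rw [Finset.sum_const, Nat.card_Icc, smul_eq_mul]
  have : X + 1 - 1 = X := by omega
  rw [this]
  nlinarith

theorem layer (x : ℝ) (m : ℕ) (hx : x ≤ m) :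
    x ≤ ∑ j ∈ Finset.range m, if (j : ℝ) < x then (1 : ℝ) else 0 := by
  induction m with
  | zero => simpa using hx
  | succ m ih =>
    rcases le_or_gt x m with h | h
    · rw [Finset.sum_range_succ]
      have := ih h
      split_ifs <;> linarith
    · have h1 : ∀ j ∈ Finset.range (m + 1), (if (j : ℝ) < x then (1 : ℝ) else 0) = 1 := by
        intro j hj
        rw [Finset.mem_range] at hj
        have : (j : ℝ) ≤ m := by exact_mod_cast Nat.lt_succ_iff.1 hj
        rw [if_pos (by linarith)]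
      rw [Finset.sum_congr rfl h1, Finset.sum_const, Finset.card_range, nsmul_eq_mul, mul_one]
      exact hx

theorem geom (m : ℕ) : ∑ j ∈ Finset.range m, (1 / 4 : ℝ) ^ (j + 1) = (1 - (1 / 4) ^ m) / 3 := by
  induction m with
  | zero => simp
  | succ m ih => rw [Finset.sum_range_succ, ih]; ring

/-- On average the logarithm of the norm of a vector is at least `n / 2 - 3`. -/
theorem average_low {N : ℕ} (hN : 2 ≤ N) (n : ℕ) (D : ℕ → ℕ)
    (hD : ∀ V, V < N ^ n → ∃ u g : ℤ, ¬ (u = 0 ∧ g = 0) ∧ ((N ^ n : ℕ) : ℤ) ∣ g * V - u ∧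
      nm u g = D V) :
    ∑ V ∈ Finset.range (N ^ n), ((n : ℝ) / 2 - Real.logb N (D V)) ≤ 3 * (N : ℝ) ^ n := by
  classical
  have hN1 : (1 : ℝ) < (N : ℝ) := by exact_mod_cast (by omega : 1 < N)
  have hN0 : (0 : ℝ) < (N : ℝ) := by linarith
  have hD1 : ∀ V, V < N ^ n → 1 ≤ D V := by
    intro V hV
    obtain ⟨u, g, h1, -, h3⟩ := hD V hV
    rw [← h3]
    exact nm_pos h1
  have hx : ∀ V ∈ Finset.range (N ^ n), ((n : ℝ) / 2 - Real.logb N (D V)) ≤
      ∑ j ∈ Finset.range n, if (j : ℝ) < ((n : ℝ) / 2 - Real.logb N (D V)) then (1 : ℝ) else 0 := by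
    intro V hV
    apply layer
    have h1 : 0 ≤ Real.logb N (D V) := by
      apply Real.logb_nonneg hN1
      exact_mod_cast hD1 V (Finset.mem_range.1 hV)
    have h2 : (0 : ℝ) ≤ n := by positivity
    linarith
  refine (Finset.sum_le_sum hx).trans ?_
  rw [Finset.sum_comm]
  have hcount : ∀ j : ℕ, (∑ V ∈ Finset.range (N ^ n),
      if (j : ℝ) < ((n : ℝ) / 2 - Real.logb N (D V)) then (1 : ℝ) else 0) =
      (((Finset.range (N ^ n)).filter (fun V : ℕ =>
        (j : ℝ) < ((n : ℝ) / 2 - Real.logb N (D V)))).card : ℝ) := by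
    intro j
    rw [Finset.sum_ite, Finset.sum_const_zero, add_zero, Finset.sum_const, nsmul_eq_mul, mul_one]
  have hj1 : ∀ j : ℕ, (((Finset.range (N ^ n)).filter (fun V : ℕ =>
        ((j + 1 : ℕ) : ℝ) < ((n : ℝ) / 2 - Real.logb N (D V)))).card : ℝ) ≤
        6 * (N : ℝ) ^ n * (1 / 4) ^ (j + 1) := by
    intro j
    -- the condition in terms of squares
    have key : ∀ V, V < N ^ n → ((j + 1 : ℕ) : ℝ) < ((n : ℝ) / 2 - Real.logb N (D V)) →
        2 * (j + 1) < n ∧ D V ^ 2 ≤ N ^ (n - 2 * (j + 1)) := by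
      intro V hV hlt
      have h1 : (1 : ℝ) ≤ (D V : ℝ) := by exact_mod_cast hD1 V hV
      have h0 : 0 ≤ Real.logb N (D V) := Real.logb_nonneg hN1 h1
      have h2 : 2 * (j + 1) < n := by
        have : ((2 * (j + 1) : ℕ) : ℝ) < (n : ℝ) := by
          push_cast at hlt ⊢
          linarith
        exact_mod_cast this
      refine ⟨h2, ?_⟩
      have h3 : Real.logb N ((D V : ℝ) ^ 2) ≤ Real.logb N ((N : ℝ) ^ (n - 2 * (j + 1))) := by
        rw [Real.logb_pow, Real.logb_pow, Real.logb_self_eq_one hN1]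
        rw [Nat.cast_sub h2.le]
        push_cast at hlt ⊢
        linarith
      have h4 := (Real.logb_le_logb hN1 (by positivity) (by positivity)).1 h3
      exact_mod_cast h4
    by_cases h2 : 2 * (j + 1) < n
    · set X := Nat.sqrt (N ^ (n - 2 * (j + 1))) with hX
      have hXX : X ^ 2 ≤ N ^ (n - 2 * (j + 1)) := Nat.sqrt_le' _
      have hXlt : X < N ^ n := by
        have h3 : X ≤ N ^ (n - 2 * (j + 1)) := Nat.sqrt_le_self _
        have h4 : N ^ (n - 2 * (j + 1)) < N ^ n := Nat.pow_lt_pow_right (by omega) (by omega)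
        omega
      have hsub : (Finset.range (N ^ n)).filter (fun V : ℕ =>
          ((j + 1 : ℕ) : ℝ) < ((n : ℝ) / 2 - Real.logb N (D V))) ⊆
          (Finset.range (N ^ n)).filter (fun V : ℕ => ∃ u g : ℤ, ¬ (u = 0 ∧ g = 0) ∧
            ((N ^ n : ℕ) : ℤ) ∣ g * V - u ∧ nm u g ≤ X) := by
        intro V hV
        obtain ⟨hV1, hV2⟩ := Finset.mem_filter.1 hV
        refine Finset.mem_filter.2 ⟨hV1, ?_⟩
        obtain ⟨u, g, h5, h6, h7⟩ := hD V (Finset.mem_range.1 hV1)
        refine ⟨u, g, h5, h6, ?_⟩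
        rw [h7]
        exact Nat.le_sqrt'.2 (key V (Finset.mem_range.1 hV1) hV2).2
      have h3 := (Finset.card_le_card hsub).trans (count (N ^ n) X hXlt)
      have h4 : (((Finset.range (N ^ n)).filter (fun V : ℕ =>
          ((j + 1 : ℕ) : ℝ) < ((n : ℝ) / 2 - Real.logb N (D V)))).card : ℝ) ≤
          6 * (N : ℝ) ^ (n - 2 * (j + 1)) := by
        exact_mod_cast h3.trans (Nat.mul_le_mul_left 6 hXX)
      refine h4.trans ?_
      rw [mul_assoc]
      apply mul_le_mul_of_nonneg_left _ (by norm_num)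
      have h5 : (N : ℝ) ^ n = (N : ℝ) ^ (n - 2 * (j + 1)) * ((N : ℝ) ^ 2) ^ (j + 1) := by
        rw [← pow_mul, ← pow_add]
        congr 1
        omega
      have h6 : (4 : ℝ) ^ (j + 1) ≤ ((N : ℝ) ^ 2) ^ (j + 1) := by
        apply pow_le_pow_left₀ (by norm_num)
        have : (2 : ℝ) ≤ N := by exact_mod_cast hN
        nlinarith
      have h7 : (1 : ℝ) ≤ ((N : ℝ) ^ 2) ^ (j + 1) * (1 / 4) ^ (j + 1) := by
        calc (1 : ℝ) = 4 ^ (j + 1) * (1 / 4) ^ (j + 1) := by
              rw [← mul_pow]; norm_num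
          _ ≤ _ := mul_le_mul_of_nonneg_right h6 (by positivity)
      rw [h5, mul_assoc]
      have h8 : (0 : ℝ) ≤ (N : ℝ) ^ (n - 2 * (j + 1)) := by positivity
      nlinarith
    · have hempty : (Finset.range (N ^ n)).filter (fun V : ℕ =>
          ((j + 1 : ℕ) : ℝ) < ((n : ℝ) / 2 - Real.logb N (D V))) = ∅ := by
        rw [Finset.filter_eq_empty_iff]
        intro V hV hlt
        exact h2 (key V (Finset.mem_range.1 hV) hlt).1
      rw [hempty]
      simp only [Finset.card_empty, Nat.cast_zero]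
      positivity
  have hq0 : (0 : ℝ) ≤ (N : ℝ) ^ n := by positivity
  rcases n with _ | m
  · simp
  · rw [Finset.sum_range_succ']
    have h0 : (∑ V ∈ Finset.range (N ^ (m + 1)),
        if ((0 : ℕ) : ℝ) < (((m + 1 : ℕ) : ℝ) / 2 - Real.logb N (D V)) then (1 : ℝ) else 0) ≤
        (N : ℝ) ^ (m + 1) := by
      rw [hcount]
      have := Finset.card_filter_le (Finset.range (N ^ (m + 1))) (fun V : ℕ =>
        ((0 : ℕ) : ℝ) < (((m + 1 : ℕ) : ℝ) / 2 - Real.logb N (D V)))
      rw [Finset.card_range] at this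
      exact_mod_cast this
    have h1 : ∑ j ∈ Finset.range m, (∑ V ∈ Finset.range (N ^ (m + 1)),
        if ((j + 1 : ℕ) : ℝ) < (((m + 1 : ℕ) : ℝ) / 2 - Real.logb N (D V)) then (1 : ℝ) else 0) ≤
        ∑ j ∈ Finset.range m, 6 * (N : ℝ) ^ (m + 1) * (1 / 4) ^ (j + 1) := by
      apply Finset.sum_le_sum
      intro j _
      rw [hcount]
      exact hj1 j
    rw [← Finset.mul_sum, geom] at h1
    have h2 : (0 : ℝ) ≤ (1 / 4) ^ m := by positivity
    have h3 : 6 * (N : ℝ) ^ (m + 1) * ((1 - (1 / 4) ^ m) / 3) ≤ 2 * (N : ℝ) ^ (m + 1) := by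
      nlinarith
    linarith

end Pool.Agent.TH730.NAd
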